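import Pool.Agent.Helper28.Res.A0
import Pool.Agent.Helper1.Res.LA4

/-!
# Route A, LA7: own labels, edges with one point in `V(P)`, and the kills of `N'_x`, `N'_y`

`e = {p, q, r}` is a block of `P`.
-/

namespace RouteA

open Finset Res12 Helper1.Res

set_option linter.unusedSectionVars false

variable {V : Type} [Fintype V] [DecidableEq V]
variable {F P : Finset (Finset V)} {s j : ℕ} {x y : V}

theorem SetUp.toMM (h : SetUp F s j P x y) : MM F s P := ⟨h.hyp, h.sub, h.mat, h.card⟩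

theorem mem_lb7 {a b w : V} :
    w ∈ lb F P x y a b ↔ ({a, b, w} : Finset V) ∈ F ∧ w ∉ VS P ∧ w ≠ x ∧ w ≠ y := by
  simp only [lb, mem_sdiff, mem_N, mem_union, mem_insert, mem_singleton, not_or]

theorem mem_Gp7 {p : V} {g : Finset V} :
    g ∈ Gp F P x y p ↔ g ∈ F ∧ g ∩ VS P = {p} ∧ x ∉ g ∧ y ∉ g := by
  simp [Gp]

/-- an own label leaves the third point of the block outside `E` -/
theorem SetUp.own_J (h : SetUp F s j P x y) {a b c : V} (he : ({a, b, c} : Finset V) ∈ P)
    (hl : (lb F P x y a b).Nonempty) : c ∉ N F x y := by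
  obtain ⟨w, hw⟩ := hl
  rw [mem_lb7] at hw
  exact own_label h.toMM h.avx h.avy he hw.2.1 hw.2.2.1 hw.2.2.2 hw.1

/-- the edges of `Gp p` have the form `{p, w, w'}` -/
theorem SetUp.gp_form (h : SetUp F s j P x y) {p : V} {g : Finset V} (hg : g ∈ Gp F P x y p) :
    ∃ w w' : V, w ≠ w' ∧ w ∉ VS P ∧ w' ∉ VS P ∧ w ≠ x ∧ w ≠ y ∧ w' ≠ x ∧ w' ≠ y ∧
      w ≠ p ∧ w' ≠ p ∧ g = {p, w, w'} ∧ ({p, w, w'} : Finset V) ∈ F := by
  rw [mem_Gp7] at hg
  obtain ⟨hgF, hgV, hgx, hgy⟩ := hg
  have h3 := h.three g hgF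
  have hpg : p ∈ g ∩ VS P := by rw [hgV]; simp
  rw [mem_inter] at hpg
  have h2 : (g.erase p).card = 2 := by rw [card_erase_of_mem hpg.1, h3]
  obtain ⟨w, w', hww, hgw⟩ := card_eq_two.1 h2
  have hge : g = {p, w, w'} := by
    rw [← insert_erase hpg.1, hgw]
  have hw : w ∈ g.erase p := by rw [hgw]; simp
  have hw' : w' ∈ g.erase p := by rw [hgw]; simp
  rw [mem_erase] at hw hw'
  have out : ∀ z : V, z ≠ p ∧ z ∈ g → z ∉ VS P := by
    intro z hz hzV
    have : z ∈ g ∩ VS P := mem_inter.2 ⟨hz.2, hzV⟩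
    rw [hgV, mem_singleton] at this
    exact hz.1 this
  refine ⟨w, w', hww, out w hw, out w' hw', ?_, ?_, ?_, ?_, hw.1, hw'.1, hge, ?_⟩
  · rintro rfl; exact hgx hw.2
  · rintro rfl; exact hgy hw.2
  · rintro rfl; exact hgx hw'.2
  · rintro rfl; exact hgy hw'.2
  · rw [← hge]; exact hgF

/-- if `Gp p` is not empty, the two other points of the block are outside `E` -/
theorem SetUp.gp_J3 (h : SetUp F s j P x y) {a b c : V} (he : ({a, b, c} : Finset V) ∈ P)
    (hg : (Gp F P x y a).Nonempty) : b ∉ N F x y ∧ c ∉ N F x y := by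
  obtain ⟨g, hg⟩ := hg
  obtain ⟨w, w', -, hw, hw', h1, h2, h3, h4, -, -, -, h5⟩ := h.gp_form hg
  exact own_G h.toMM h.avx h.avy he hw hw' h1 h2 h3 h4 h5

/-- a block containing `p`, written with `p` first -/
theorem SetUp.block_first (h : SetUp F s j P x y) {e : Finset V} (he : e ∈ P) {p : V}
    (hp : p ∈ e) : ∃ q r : V, q ≠ r ∧ q ≠ p ∧ r ≠ p ∧ e = {p, q, r} := by
  have h3 := h.threeP e he
  have h2 : (e.erase p).card = 2 := by rw [card_erase_of_mem hp, h3]
  obtain ⟨q, r, hqr, hgw⟩ := card_eq_two.1 h2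
  have hge : e = {p, q, r} := by rw [← insert_erase hp, hgw]
  have hq : q ∈ e.erase p := by rw [hgw]; simp
  have hr : r ∈ e.erase p := by rw [hgw]; simp
  exact ⟨q, r, hqr, (mem_erase.1 hq).1, (mem_erase.1 hr).1, hge⟩

/-- a block containing `p ≠ q`, written with `p`, `q` first -/
theorem SetUp.block_two (h : SetUp F s j P x y) {e : Finset V} (he : e ∈ P) {p q : V}
    (hp : p ∈ e) (hq : q ∈ e) (hpq : p ≠ q) : ∃ r : V, r ≠ p ∧ r ≠ q ∧ e = {p, q, r} := by
  obtain ⟨a, b, hab, ha, hb, rfl⟩ := h.block_first he hp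
  simp only [mem_insert, mem_singleton] at hq
  rcases hq with rfl | rfl | rfl
  · exact absurd rfl hpq
  · exact ⟨b, hb, hab.symm, rfl⟩
  · exact ⟨a, ha, hab, by ext z; simp only [mem_insert, mem_singleton]; tauto⟩

theorem SetUp.gp_J (h : SetUp F s j P x y) {e : Finset V} (he : e ∈ P) {p : V} (hp : p ∈ e)
    (hg : (Gp F P x y p).Nonempty) : ∀ q ∈ e, q ≠ p → q ∉ N F x y := by
  intro q hq hqp
  obtain ⟨r, -, -, rfl⟩ := h.block_two he hp hq hqp.symm
  exact (h.gp_J3 he hg).1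

theorem SetUp.own_J' (h : SetUp F s j P x y) {e : Finset V} (he : e ∈ P) {a b c : V}
    (ha : a ∈ e) (hb : b ∈ e) (hc : c ∈ e) (hab : a ≠ b) (hca : c ≠ a) (hcb : c ≠ b)
    (hl : (lb F P x y a b).Nonempty) : c ∉ N F x y := by
  obtain ⟨r, -, -, rfl⟩ := h.block_two he ha hb hab
  simp only [mem_insert, mem_singleton] at hc
  rcases hc with rfl | rfl | rfl
  · exact absurd rfl hca
  · exact absurd rfl hcb
  · exact h.own_J he hl

/-! ### Types -/

theorem mem_J7 {e : Finset V} {p : V} : p ∈ e \ N F x y ↔ p ∈ e ∧ p ∉ N F x y := mem_sdiff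

/-- a block of type 0 lies in `E` -/
theorem ty_zero7 {e : Finset V} : ty F x y e = 0 ↔ e ⊆ N F x y := by
  unfold ty
  rw [card_eq_zero, sdiff_eq_empty_iff_subset]

/-- own labels need a point outside `E`: a block of type 0 has none -/
theorem SetUp.lb_own_empty (h : SetUp F s j P x y) {e : Finset V} (he : e ∈ P)
    (h0 : ty F x y e = 0) {a b : V} (ha : a ∈ e) (hb : b ∈ e) (hab : a ≠ b) :
    lb F P x y a b = ∅ := by
  rw [← not_nonempty_iff_eq_empty]
  intro hl
  obtain ⟨r, hra, hrb, rfl⟩ := h.block_two he ha hb hab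
  exact h.own_J he hl (ty_zero7.1 h0 (by simp))

/-- in a block of type 1 with the point `c` outside `E` the own pairs containing `c` have no
labels -/
theorem SetUp.lb_own_one (h : SetUp F s j P x y) {e : Finset V} (he : e ∈ P)
    (h1 : ty F x y e = 1) {a c : V} (ha : a ∈ e) (hc : c ∈ e) (hac : a ≠ c)
    (hcJ : c ∉ N F x y) : lb F P x y a c = ∅ := by
  rw [← not_nonempty_iff_eq_empty]
  intro hl
  obtain ⟨r, hra, hrc, rfl⟩ := h.block_two he ha hc hac
  have hr := h.own_J he hl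
  have h2 : ({c, r} : Finset V) ⊆ ({a, c, r} : Finset V) \ N F x y := by
    intro z hz
    simp only [mem_insert, mem_singleton] at hz
    rw [mem_sdiff]
    rcases hz with rfl | rfl
    · exact ⟨hc, hcJ⟩
    · exact ⟨by simp, hr⟩
  have h3 := card_le_card h2
  rw [card_pair hrc.symm] at h3
  unfold ty at h1
  omega

/-- if `Gp p` is not empty the block has type at least 2 -/
theorem SetUp.two_le_ty_of_gp (h : SetUp F s j P x y) {e : Finset V} (he : e ∈ P) {p : V}
    (hp : p ∈ e) (hg : (Gp F P x y p).Nonempty) : 2 ≤ ty F x y e := by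
  obtain ⟨q, r, hqr, hqp, hrp, rfl⟩ := h.block_first he hp
  obtain ⟨hq, hr⟩ := h.gp_J3 he hg
  have h2 : ({q, r} : Finset V) ⊆ ({p, q, r} : Finset V) \ N F x y := by
    intro z hz
    simp only [mem_insert, mem_singleton] at hz
    rw [mem_sdiff]
    rcases hz with rfl | rfl
    · exact ⟨by simp, hq⟩
    · exact ⟨by simp, hr⟩
  have h3 := card_le_card h2
  rwa [card_pair hqr] at h3

/-- a block of type at most 1 has no `Gp` edges -/
theorem SetUp.gp_empty (h : SetUp F s j P x y) {e : Finset V} (he : e ∈ P)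
    (h1 : ty F x y e ≤ 1) {p : V} (hp : p ∈ e) : Gp F P x y p = ∅ := by
  rw [← not_nonempty_iff_eq_empty]
  intro hg
  have := h.two_le_ty_of_gp he hp hg
  omega

/-- in a block of type 2 only the point of `E` has `Gp` edges -/
theorem SetUp.gp_two (h : SetUp F s j P x y) {e : Finset V} (he : e ∈ P)
    (h1 : ty F x y e = 2) {p : V} (hp : p ∈ e) (hg : (Gp F P x y p).Nonempty) :
    p ∈ N F x y := by
  by_contra hpJ
  obtain ⟨q, r, hqr, hqp, hrp, rfl⟩ := h.block_first he hp
  obtain ⟨hq, hr⟩ := h.gp_J3 he hg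
  have h2 : ({p, q, r} : Finset V) ⊆ ({p, q, r} : Finset V) \ N F x y := by
    intro z hz
    rw [mem_sdiff]
    refine ⟨hz, ?_⟩
    simp only [mem_insert, mem_singleton] at hz
    rcases hz with rfl | rfl | rfl <;> assumption
  have h3 := card_le_card h2
  rw [h.threeP _ he] at h3
  unfold ty at h1
  omega

/-! ### The kills of `N'_x`, `N'_y` in the own block -/

/-- `z`, `z'` are two outside points; an edge `{z, p, w}` kills `{q, r, z'}` -/
theorem SetUp.kill_own (h : SetUp F s j P x y) {p q r z z' w : V}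
    (he : ({p, q, r} : Finset V) ∈ P) (hz : z ∉ VS P) (hz' : z' ∉ VS P) (hw : w ∉ VS P)
    (hzz : z ≠ z') (hwz : w ≠ z') (h1 : ({z, p, w} : Finset V) ∈ F) :
    ({q, r, z'} : Finset V) ∉ F := by
  intro h2
  obtain ⟨n1, n2, n3⟩ := h.toMM.ne3 he
  have hq : q ∈ ({p, q, r} : Finset V) := by simp
  have hr : r ∈ ({p, q, r} : Finset V) := by simp
  have hp : p ∈ ({p, q, r} : Finset V) := by simp
  refine one_block h.toMM he h1 h2
    (disj3 ⟨(out_ne he hq hz).symm, (out_ne he hr hz).symm, hzz, n1, n2, out_ne he hp hz',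
      (out_ne he hq hw).symm, (out_ne he hr hw).symm, hwz⟩) ?_ ?_
  · intro t ht
    simp only [mem_insert, mem_singleton] at ht ⊢
    rcases ht with rfl | rfl | rfl
    · exact Or.inr hz
    · exact Or.inl (Or.inl rfl)
    · exact Or.inr hw
  · intro t ht
    simp only [mem_insert, mem_singleton] at ht ⊢
    rcases ht with rfl | rfl | rfl
    · exact Or.inl (Or.inr (Or.inl rfl))
    · exact Or.inl (Or.inr (Or.inr rfl))
    · exact Or.inr hz'

/-- N1 for `x`: if `N'_x(p)` is not empty then `{q, r, y}` is missing -/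
theorem SetUp.N1x (h : SetUp F s j P x y) {p q r : V} (he : ({p, q, r} : Finset V) ∈ P)
    (hl : (lb F P x y x p).Nonempty) : ({q, r, y} : Finset V) ∉ F := by
  obtain ⟨w, hw⟩ := hl
  rw [mem_lb7] at hw
  exact h.kill_own he h.avx h.avy hw.2.1 h.ne hw.2.2.2 hw.1

/-- N1 for `y`: if `N'_y(p)` is not empty then `{q, r, x}` is missing -/
theorem SetUp.N1y (h : SetUp F s j P x y) {p q r : V} (he : ({p, q, r} : Finset V) ∈ P)
    (hl : (lb F P x y y p).Nonempty) : ({q, r, x} : Finset V) ∉ F := by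
  obtain ⟨w, hw⟩ := hl
  rw [mem_lb7] at hw
  exact h.kill_own he h.avy h.avx hw.2.1 h.ne.symm hw.2.2.1 hw.1

/-- `z`, `z'` outside points, `{z, p, w}` and `{z', q, w'}` edges at different points of a block:
then `w = w'` -/
theorem SetUp.same_own (h : SetUp F s j P x y) {e : Finset V} (he : e ∈ P) {p q z z' w w' : V}
    (hp : p ∈ e) (hq : q ∈ e) (hpq : p ≠ q) (hz : z ∉ VS P) (hz' : z' ∉ VS P) (hw : w ∉ VS P)
    (hw' : w' ∉ VS P) (hzz : z ≠ z') (hwz : w ≠ z') (hwz' : w' ≠ z)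
    (h1 : ({z, p, w} : Finset V) ∈ F) (h2 : ({z', q, w'} : Finset V) ∈ F) : w = w' := by
  by_contra hww
  refine one_block h.toMM he h1 h2
    (disj3 ⟨hzz, (out_ne he hq hz).symm, hwz'.symm, out_ne he hp hz', hpq,
      out_ne he hp hw', hwz, (out_ne he hq hw).symm, hww⟩) ?_ ?_
  · intro t ht
    simp only [mem_insert, mem_singleton] at ht
    rcases ht with rfl | rfl | rfl
    · exact Or.inr hz
    · exact Or.inl hp
    · exact Or.inr hw
  · intro t ht
    simp only [mem_insert, mem_singleton] at ht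
    rcases ht with rfl | rfl | rfl
    · exact Or.inr hz'
    · exact Or.inl hq
    · exact Or.inr hw'

/-- N2: `p ≠ q` in one block, `N'_x(p)` and `N'_y(q)` not empty: both are the same singleton -/
theorem SetUp.N2 (h : SetUp F s j P x y) {e : Finset V} (he : e ∈ P) {p q : V}
    (hp : p ∈ e) (hq : q ∈ e) (hpq : p ≠ q) (h1 : (lb F P x y x p).Nonempty)
    (h2 : (lb F P x y y q).Nonempty) : ∃ w, lb F P x y x p = {w} ∧ lb F P x y y q = {w} := by
  have key : ∀ a ∈ lb F P x y x p, ∀ b ∈ lb F P x y y q, a = b := by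
    intro a ha b hb
    rw [mem_lb7] at ha hb
    exact h.same_own he hp hq hpq h.avx h.avy ha.2.1 hb.2.1 h.ne ha.2.2.2 hb.2.2.1 ha.1 hb.1
  obtain ⟨a, ha⟩ := h1
  obtain ⟨b, hb⟩ := h2
  have hab := key a ha b hb
  subst hab
  refine ⟨a, ?_, ?_⟩
  · ext z
    rw [mem_singleton]
    exact ⟨fun hz => key z hz a hb, fun hz => hz ▸ ha⟩
  · ext z
    rw [mem_singleton]
    exact ⟨fun hz => (key a ha z hz).symm, fun hz => hz ▸ hb⟩

/-- an own label of `{q, r}` and an edge `{z, p, w}` (`z` outside, e.g. `z = x`) share the outside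
point `w`, and every own label is `z` or `w` -/
theorem SetUp.own_label_unique (h : SetUp F s j P x y) {p q r z w w' : V}
    (he : ({p, q, r} : Finset V) ∈ P) (hz : z ∉ VS P) (hw : w ∉ VS P) (hw' : w' ∉ VS P)
    (h1 : ({z, p, w} : Finset V) ∈ F) (h2 : ({q, r, w'} : Finset V) ∈ F) : w' = z ∨ w' = w := by
  by_contra hcon
  rw [not_or] at hcon
  exact h.kill_own he hz hw' hw (Ne.symm hcon.1) (Ne.symm hcon.2) h1 h2

end RouteA
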